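import Pool.Agent.Y272.LC.Stm5
import Pool.Agent.Y272.LC.Base

set_option autoImplicit false

/-!
# A parameter close to `c0` has an angle close to `θ` (helper272's part LOW)
-/

open Complex Filter Topology Metric Set

namespace Pool.Agent.Y388.LC

open Pool.Agent.H712R2 Pool.Agent.H713R2 Pool.Agent.H713R2.AR Pool.Agent.W677.Mar
open Pool.Agent.Y272.TY Pool.Agent.Y272.LC

attribute [local irreducible] Pool.Agent.H713R2.AR.green

variable {d : ℕ} {Φ : ℂ → ℂ → ℂ} {β : ℂ → ℂ}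

/-- the parameter rays depend continuously on the angle and the level -/
theorem continuousOn_pa (hβ : IsBeta d β) {f g : ℝ × ℝ → ℝ} (hf : Continuous f)
    (hg : Continuous g) {Q : Set (ℝ × ℝ)} (hQ : ∀ q ∈ Q, 0 < g q) :
    ContinuousOn (fun q => pa β (f q) (g q)) Q := by
  have h1 : Continuous fun q : ℝ × ℝ => Complex.exp (-(zt (g q) (f q))) :=
    Complex.continuous_exp.comp (continuous_zt.comp (hg.prodMk hf)).neg
  have h2 : MapsTo (fun q : ℝ × ℝ => Complex.exp (-(zt (g q) (f q)))) Q (ball 0 1) := by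
    intro q hq
    rw [mem_ball_zero_iff, Complex.norm_exp, Complex.neg_re, zt_re, Real.exp_lt_one_iff]
    linarith [hQ q hq]
  have h3 : ContinuousOn (fun q : ℝ × ℝ => β (Complex.exp (-(zt (g q) (f q))))) Q :=
    hβ.diff.continuousOn.comp h1.continuousOn h2
  have h4 : ContinuousOn (fun q : ℝ × ℝ => (Complex.exp (-(zt (g q) (f q))))⁻¹) Q :=
    (h1.inv₀ fun q => Complex.exp_ne_zero _).continuousOn
  exact h4.mul h3

/-- the critical orbit of a parameter on a parameter ray -/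
theorem P_pa (hd : 2 ≤ d) (hΦ : IsBott d Φ) (hβ : IsBeta d β) (n : ℕ) (u : ℝ) {G : ℝ}
    (hG : 0 < G) : green d (pa β u G) 0 < G ∧ P d (n + 1) (pa β u G) =
      Φ (pa β u G) (zt ((d : ℝ) ^ n * G) ((d : ℝ) ^ n * u)) := by
  have hE := esc_pa hΦ hβ u hG
  have hd2 : (2 : ℝ) ≤ d := by exact_mod_cast hd
  have h1 : green d (pa β u G) 0 < G := by
    rw [hE.crit, div_lt_iff₀ (by linarith)]
    nlinarith
  refine ⟨h1, ?_⟩
  have h2 : P d (n + 1) (pa β u G) = (fc d (pa β u G))^[n] (fc d (pa β u G) 0) := by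
    unfold P
    rw [Function.iterate_succ_apply]
  have h3 : fc d (pa β u G) 0 = pa β u G := by
    have h4 := P_one hd (pa β u G)
    unfold P at h4
    rwa [Function.iterate_one] at h4
  rw [h2, h3, ← map_iter hΦ hd h1, hE.val]

theorem t : St_Low := by
  intro d Φ β hd hΦ hβ c0 w θ ε l a b η δ₂ κ K ρ M e Λ n k W hε hl hab hlim h1 h2 h3 h4 h5
    hδ hκ hκK hρ hM hρε he hΛ hW hWb hPW hW0 hη h4e h16e
  have hd2 : (2 : ℝ) ≤ d := by exact_mod_cast hd
  have hD : (0 : ℝ) < (d : ℝ) ^ n := by positivity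
  have hD1 : (1 : ℝ) ≤ (d : ℝ) ^ n := one_le_pow₀ (by linarith)
  have hK : 0 < K := by linarith
  obtain ⟨r₀, hr₀⟩ : ∃ r₀, r₀ = ρ / M := ⟨_, rfl⟩
  rw [← hr₀] at hρε hW hWb hPW
  have hr₀0 : 0 < r₀ := by rw [hr₀]; positivity
  have hrM : r₀ * M = ρ := by rw [hr₀]; field_simp
  have hc00 : c0 ∈ ball c0 r₀ := mem_ball_self hr₀0
  have hc0ε : c0 ∈ ball c0 ε := mem_ball_self hε
  have hgc0 : green d c0 0 < l / 2 := (h3 c0 hc0ε c0 hc0ε a ⟨le_rfl, hab.le⟩).1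
  have hη0 : 0 ≤ η := (norm_nonneg _).trans
    (h1 c0 hc0ε (l / 2) ((a + b) / 2) hgc0 (by linarith) (by linarith) (by linarith))
  have hδρ : δ₂ < κ * ρ / 4 := by linarith
  -- the small ball
  have hsmall : δ₂ / (4 * K * M) < r₀ / 16 := by
    rw [div_lt_div_iff₀ (by positivity) (by norm_num)]
    have h6 : κ * ρ ≤ K * ρ := mul_le_mul_of_nonneg_right hκK hρ.le
    have h7 : r₀ * (4 * K * M) = 4 * (K * ρ) := by rw [← hrM]; ring
    rw [h7]
    linarith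
  -- the values of the curves
  have hval : ∀ (m : ℤ) (s' t' : ℝ), 0 < s' →
      green d (pa β ((t' + m) / (d : ℝ) ^ n) (s' / (d : ℝ) ^ n)) 0 < s' ∧
      P d (n + 1) (pa β ((t' + m) / (d : ℝ) ^ n) (s' / (d : ℝ) ^ n)) =
        Φ (pa β ((t' + m) / (d : ℝ) ^ n) (s' / (d : ℝ) ^ n)) (zt s' t') := by
    intro m s' t' hs'
    have hG : 0 < s' / (d : ℝ) ^ n := div_pos hs' hD
    obtain ⟨h6, h7⟩ := P_pa hd hΦ hβ n ((t' + m) / (d : ℝ) ^ n) hG
    have h8 : s' / (d : ℝ) ^ n ≤ s' := div_le_self hs'.le hD1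
    refine ⟨h6.trans_le h8, ?_⟩
    rw [h7, mul_div_cancel₀ _ hD.ne', mul_div_cancel₀ _ hD.ne',
      per_int hΦ (h6.trans_le h8)]
  -- the gap
  have hgap : ∀ (m : ℤ) (s' t' : ℝ), 0 < s' → s' < l → a < t' → t' < b →
      pa β ((t' + m) / (d : ℝ) ^ n) (s' / (d : ℝ) ^ n) ∈ ball c0 r₀ →
      pa β ((t' + m) / (d : ℝ) ^ n) (s' / (d : ℝ) ^ n) ∈ ball c0 (r₀ / 4) := by
    intro m s' t' hs' hs'l hat htb hc
    obtain ⟨h6, h7⟩ := hval m s' t' hs'
    set c := pa β ((t' + m) / (d : ℝ) ^ n) (s' / (d : ℝ) ^ n) with hcdef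
    have h8 : ‖P d (n + 1) c - w‖ ≤ η := by
      rw [h7]
      exact h1 c (ball_subset_ball hρε hc) s' t' h6 hs'l hat htb
    have h9 := hPW c hc
    have h10 : ‖W c - W c0‖ ≤ ‖P d (n + 1) c - W c‖ + ‖P d (n + 1) c - w‖ + ‖W c0 - w‖ := by
      have e1 : W c - W c0 = -(P d (n + 1) c - W c) + (P d (n + 1) c - w) - (W c0 - w) := by ring
      rw [e1]
      refine (norm_sub_le _ _).trans ?_
      gcongr
      refine (norm_add_le _ _).trans ?_
      rw [norm_neg]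
    have h11 := (hWb c hc c0 hc00).1
    have h12 : κ * M * ‖c - c0‖ < κ * ρ / 4 := by linarith
    rw [mem_ball, dist_eq_norm]
    have h13 : κ * M * ‖c - c0‖ < κ * M * (r₀ / 4) := by
      have : κ * M * (r₀ / 4) = κ * ρ / 4 := by rw [← hrM]; ring
      rw [this]
      exact h12
    exact lt_of_mul_lt_mul_left h13 (by positivity)
  -- connectedness
  have hconn : ∀ m : ℤ, (∃ s' t', 0 < s' ∧ s' < l ∧ a < t' ∧ t' < b ∧
      pa β ((t' + m) / (d : ℝ) ^ n) (s' / (d : ℝ) ^ n) ∈ ball c0 (r₀ / 2)) →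
      pa β (((a + b) / 2 + m) / (d : ℝ) ^ n) (l / 2 / (d : ℝ) ^ n) ∈ ball c0 (r₀ / 4) := by
    rintro m ⟨s', t', hs', hs'l, hat, htb, hc⟩
    set Q : Set (ℝ × ℝ) := Ioo 0 l ×ˢ Ioo a b with hQ
    set H : ℝ × ℝ → ℂ := fun q => pa β ((q.2 + m) / (d : ℝ) ^ n) (q.1 / (d : ℝ) ^ n) with hH
    have hHc : ContinuousOn H Q := by
      refine continuousOn_pa hβ (f := fun q => (q.2 + m) / (d : ℝ) ^ n)
        (g := fun q => q.1 / (d : ℝ) ^ n) (by fun_prop) (by fun_prop) ?_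
      intro q hq
      exact div_pos hq.1.1 hD
    have hpre : IsPreconnected (H '' Q) :=
      (isPreconnected_Ioo.prod isPreconnected_Ioo).image H hHc
    have hsub : H '' Q ⊆ ball c0 (r₀ / 2) := by
      refine hpre.subset_left_of_subset_union isOpen_ball
        (isClosed_closedBall (x := c0) (ε := r₀ / 2)).isOpen_compl ?_ ?_ ?_
      · rw [Set.disjoint_compl_right_iff_subset]
        exact ball_subset_closedBall
      · rintro _ ⟨q, hq, rfl⟩
        by_cases h6 : H q ∈ ball c0 r₀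
        · left
          exact ball_subset_ball (by linarith)
            (hgap m q.1 q.2 hq.1.1 hq.1.2 hq.2.1 hq.2.2 h6)
        · right
          rw [mem_compl_iff, mem_closedBall, not_le]
          rw [mem_ball, not_lt] at h6
          linarith
      · exact ⟨H (s', t'), ⟨(s', t'), ⟨⟨hs', hs'l⟩, ⟨hat, htb⟩⟩, rfl⟩, hc⟩
    have hq : ((l / 2, (a + b) / 2) : ℝ × ℝ) ∈ Q :=
      ⟨⟨by linarith, by linarith⟩, ⟨by linarith, by linarith⟩⟩
    have h6 : H (l / 2, (a + b) / 2) ∈ ball c0 (r₀ / 2) := hsub ⟨_, hq, rfl⟩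
    exact hgap m (l / 2) ((a + b) / 2) hq.1.1 hq.1.2 hq.2.1 hq.2.2
      (ball_subset_ball (by linarith) h6)
  -- the ray of angle `θ`
  have hk1 : ∃ s' t', 0 < s' ∧ s' < l ∧ a < t' ∧ t' < b ∧
      pa β ((t' + k) / (d : ℝ) ^ n) (s' / (d : ℝ) ^ n) ∈ ball c0 (r₀ / 2) := by
    have h6 : ∀ᶠ G in 𝓝[>] (0 : ℝ), pa β θ G ∈ ball c0 (r₀ / 2) :=
      hlim.eventually (ball_mem_nhds c0 (by linarith))
    have h7 : ∀ᶠ G in 𝓝[>] (0 : ℝ), G ∈ Ioo 0 (l / (d : ℝ) ^ n) :=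
      Ioo_mem_nhdsGT (div_pos hl hD)
    obtain ⟨G, hG1, hG2⟩ := (h6.and h7).exists
    refine ⟨(d : ℝ) ^ n * G, (d : ℝ) ^ n * θ - k, mul_pos hD hG2.1, ?_, h4, h5, ?_⟩
    · have := hG2.2
      rw [lt_div_iff₀ hD] at this
      linarith
    · have e1 : ((d : ℝ) ^ n * θ - k + k) / (d : ℝ) ^ n = θ := by
        rw [sub_add_cancel, mul_div_cancel_left₀ _ hD.ne']
      have e2 : (d : ℝ) ^ n * G / (d : ℝ) ^ n = G := mul_div_cancel_left₀ _ hD.ne'
      rw [e1, e2]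
      exact hG1
  intro s u hs hc
  have hcr : pa β u s ∈ ball c0 r₀ := ball_subset_ball (by linarith) hc
  obtain ⟨hgr, hPc⟩ := P_pa hd hΦ hβ n u hs
  have hsD : s ≤ (d : ℝ) ^ n * s := le_mul_of_one_le_left hs.le hD1
  -- the point is close to `w`
  have hz : P d (n + 1) (pa β u s) ∈ ball w δ₂ := by
    have h6 := hPW _ hcr
    have h7 := (hWb _ hcr c0 hc00).2
    have h8 : ‖pa β u s - c0‖ < δ₂ / (4 * K * M) := by
      rwa [mem_ball, dist_eq_norm] at hc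
    have h9 : K * M * ‖pa β u s - c0‖ < δ₂ / 4 := by
      have h10 : K * M * ‖pa β u s - c0‖ < K * M * (δ₂ / (4 * K * M)) :=
        mul_lt_mul_of_pos_left h8 (by positivity)
      have h11 : K * M * (δ₂ / (4 * K * M)) = δ₂ / 4 := by field_simp
      linarith
    rw [mem_ball, dist_eq_norm]
    have e1 : P d (n + 1) (pa β u s) - w = (P d (n + 1) (pa β u s) - W (pa β u s)) +
        (W (pa β u s) - W c0) + (W c0 - w) := by ring
    rw [e1]
    refine lt_of_le_of_lt (norm_add₃_le) ?_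
    linarith
  obtain ⟨hsl, k', hk'1, hk'2⟩ := h2 _ (ball_subset_ball hρε hcr) _ hz ((d : ℝ) ^ n * s)
    ((d : ℝ) ^ n * u) (hgr.trans_le hsD) hPc.symm
  refine ⟨hsl, ?_⟩
  have hk2 : ∃ s' t', 0 < s' ∧ s' < l ∧ a < t' ∧ t' < b ∧
      pa β ((t' + k') / (d : ℝ) ^ n) (s' / (d : ℝ) ^ n) ∈ ball c0 (r₀ / 2) := by
    refine ⟨(d : ℝ) ^ n * s, (d : ℝ) ^ n * u - k', mul_pos hD hs, hsl, hk'1, hk'2, ?_⟩
    have e1 : ((d : ℝ) ^ n * u - k' + k') / (d : ℝ) ^ n = u := by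
      rw [sub_add_cancel, mul_div_cancel_left₀ _ hD.ne']
    have e2 : (d : ℝ) ^ n * s / (d : ℝ) ^ n = s := mul_div_cancel_left₀ _ hD.ne'
    rw [e1, e2]
    exact ball_subset_ball (by linarith) hc
  have hc1 := hconn k hk1
  have hc2 := hconn k' hk2
  obtain ⟨hg1, hP1⟩ := hval k (l / 2) ((a + b) / 2) (by linarith)
  obtain ⟨hg2, hP2⟩ := hval k' (l / 2) ((a + b) / 2) (by linarith)
  set c₁ := pa β (((a + b) / 2 + k) / (d : ℝ) ^ n) (l / 2 / (d : ℝ) ^ n) with hc₁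
  set c₂ := pa β (((a + b) / 2 + k') / (d : ℝ) ^ n) (l / 2 / (d : ℝ) ^ n) with hc₂
  -- the derivative of `P - W`
  have hder : ‖(P d (n + 1) c₁ - W c₁) - (P d (n + 1) c₂ - W c₂)‖ ≤
      e / (r₀ / 2) * ‖c₁ - c₂‖ := by
    have hdiff : DifferentiableOn ℂ (fun c => P d (n + 1) c - W c) (ball c0 r₀) :=
      (differentiable_P d (n + 1)).differentiableOn.sub hW
    refine Convex.norm_image_sub_le_of_norm_deriv_le (f := fun c => P d (n + 1) c - W c)
      (s := ball c0 (r₀ / 4)) (fun x hx => ?_) (fun x hx => ?_) (convex_ball _ _) hc2 hc1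
    · exact (hdiff x (ball_subset_ball (by linarith) hx)).differentiableAt
        (isOpen_ball.mem_nhds (ball_subset_ball (by linarith) hx))
    · have hsub : closedBall x (r₀ / 2) ⊆ ball c0 r₀ := by
        intro y hy
        rw [mem_closedBall] at hy
        rw [mem_ball] at hx ⊢
        have := dist_triangle y x c0
        linarith
      refine Complex.norm_deriv_le_of_forall_mem_sphere_norm_le (by linarith) ?_ ?_
      · refine (hdiff.mono ?_).diffContOnCl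
        rw [closure_ball x (by linarith)]
        exact hsub
      · intro y hy
        exact hPW y (hsub (sphere_subset_closedBall hy))
  have hlip : ‖P d (n + 1) c₁ - P d (n + 1) c₂‖ ≤ Λ * ‖c₁ - c₂‖ := by
    rw [hP1, hP2]
    have hm1 : c₁ ∈ ball c0 ε := ball_subset_ball (by linarith) hc1
    have hm2 : c₂ ∈ ball c0 ε := ball_subset_ball (by linarith) hc2
    exact (h3 c₁ hm1 c₂ hm2 ((a + b) / 2) ⟨by linarith, by linarith⟩).2
  have hlow := (hWb c₁ (ball_subset_ball (by linarith) hc1) c₂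
    (ball_subset_ball (by linarith) hc2)).1
  have hWW : ‖W c₁ - W c₂‖ ≤ ‖P d (n + 1) c₁ - P d (n + 1) c₂‖ +
      ‖(P d (n + 1) c₁ - W c₁) - (P d (n + 1) c₂ - W c₂)‖ := by
    have e1 : W c₁ - W c₂ = (P d (n + 1) c₁ - P d (n + 1) c₂) -
        ((P d (n + 1) c₁ - W c₁) - (P d (n + 1) c₂ - W c₂)) := by ring
    rw [e1]
    exact norm_sub_le _ _
  have hcc : c₁ = c₂ := by
    by_contra hne
    have hpos : 0 < ‖c₁ - c₂‖ := norm_pos_iff.2 (sub_ne_zero.2 hne)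
    have h6 : κ * M * ‖c₁ - c₂‖ ≤ (Λ + e / (r₀ / 2)) * ‖c₁ - c₂‖ := by linarith
    have h7 := le_of_mul_le_mul_right h6 hpos
    have h8 : e / (r₀ / 2) < κ * M / 8 := by
      rw [div_lt_iff₀ (by linarith)]
      have : κ * M / 8 * (r₀ / 2) = κ * ρ / 16 := by rw [← hrM]; ring
      linarith
    have h9 : 0 < κ * M := by positivity
    linarith
  -- comparison of the angles
  have hG : 0 < l / 2 / (d : ℝ) ^ n := div_pos (by linarith) hD
  have hE1 := esc_pa hΦ hβ (((a + b) / 2 + k) / (d : ℝ) ^ n) hG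
  have hE2 := esc_pa hΦ hβ (((a + b) / 2 + k') / (d : ℝ) ^ n) hG
  have hv1 := hE1.val
  have hv2 := hE2.val
  rw [← hc₁] at hv1
  rw [← hc₂, ← hcc] at hv2
  have hgr1 : green d c₁ 0 < l / 2 / (d : ℝ) ^ n :=
    (P_pa hd hΦ hβ n (((a + b) / 2 + k) / (d : ℝ) ^ n) hG).1
  obtain ⟨-, j, hj⟩ := inj_zt hΦ hgr1 hgr1 (hv1.trans hv2.symm)
  have hkk : (k : ℝ) = k' + (d : ℝ) ^ n * j := by
    rw [div_eq_iff hD.ne', add_mul, div_mul_cancel₀ _ hD.ne'] at hj
    linarith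
  refine ⟨-j, ?_, ?_⟩
  · rw [hkk]
    push_cast
    linarith
  · rw [hkk]
    push_cast
    linarith

end Pool.Agent.Y388.LC
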